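import Pool.Agent.H995R3.SN.General

/-!
# Models of `cof(SN) < 𝔟`

`SMZ X`: the set `X` of reals has strong measure zero. `cofSN`: cofinality of the ideal `SN` of
strong measure zero sets of reals; `bNum`: the bounding number. `Ecl c X` (for `c : ℝ → ℝ^ω`) is
the set of all reals `x` such that for all positive `ε_n` there is `y ∈ X` with
`|x - c(y)(n)| < ε_n` for infinitely many `n`.

If `cof(SN) < 𝔟` then `SN` is closed under Borel images of products, under generating subfields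
of `ℝ`, and under the operations `Ecl c` for Borel `c`, and there is a dominating family all of
whose Borel images are `SMZ`. And for a given Borel surjection `c : ℝ → ℝ^ω`, `cof(SN) < 𝔟` holds
if and only if `ℝ` is the union of fewer than `𝔟` many `SMZ` sets which are closed under `Ecl c`
(up to inclusion).
-/

set_option autoImplicit false

namespace Pool.Agent.Results.MP_3e8648_lc.BelowBounding

open Cardinal H995SN

theorem result :
    (cofSN < bNum → ∀ ψ : ℝ × ℝ → ℝ, Measurable ψ → ∀ X Y : Set ℝ, SMZ X → SMZ Y →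
      SMZ (ψ '' (X ×ˢ Y))) ∧
    (cofSN < bNum → ∀ X : Set ℝ, SMZ X → SMZ (Subfield.closure X : Set ℝ)) ∧
    (cofSN < bNum → ∀ c : ℝ → ℕ → ℝ, Measurable c → ∀ X : Set ℝ, SMZ X → SMZ (Ecl c X)) ∧
    (cofSN < bNum → ∃ D : Set (ℕ → ℕ), (∀ f, ∃ g ∈ D, EvDom f g) ∧
      ∀ ψ : (ℕ → ℕ) → ℝ, Measurable ψ → SMZ (ψ '' D)) ∧
    (∀ c : ℝ → ℕ → ℝ, Measurable c → Function.Surjective c →
      (cofSN < bNum ↔ ∃ 𝒳 : Set (Set ℝ), #𝒳 < bNum ∧ (∀ A ∈ 𝒳, SMZ A) ∧
        (∀ x : ℝ, ∃ A ∈ 𝒳, x ∈ A) ∧ ∀ A ∈ 𝒳, ∃ B ∈ 𝒳, Ecl c A ⊆ B)) :=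
  ⟨fun h _ hψ _ _ hX hY => image2_borel' h hψ hX hY, fun h _ hX => smz_closure' h hX,
    fun h _ hc _ hX => smz_Ecl' h hc hX, exists_dominating', fun _ h1 h2 => family_iff h1 h2⟩

end Pool.Agent.Results.MP_3e8648_lc.BelowBounding
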